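import Pool.Agent.H620R2.GaugeX.X5
import Pool.Agent.H620R2.GaugeR.R8
import Pool.Agent.H620R2.Gauge2.Trans
import Pool.Agent.W900.CH.PLev

/-!
# Sets of oracles that can be reached from every oracle at sparse code strings

`Reach O` says that, for every exponent `K`, every oracle can be changed at the strings
`code R e x`, where the polynomials `R e` grow at least as `(n + e + 1) ^ K`, in such a way that
the new oracle is in `O`. Consequences: `O` is not a null set for large gauges, and every oracle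
can be moved into `O` by changing few strings.
-/

set_option autoImplicit false

namespace Pool.Agent.Helper11x.SW7

open Pool.Agent.NPC Pool.Agent.H620R2.Gauge MeasureTheory Filter
open Pool.Agent.W900.CH

/-- every oracle can be changed at sparse code strings in such a way that it is in `O` -/
def Reach (O : Set Oracle) : Prop :=
  ∀ K : ℕ, ∃ (R : ℕ → Polynomial ℕ) (Φ : Oracle → Oracle),
    (∀ e n, (n + e + 1) ^ K ≤ (R e).eval n) ∧
    (∀ B y, (∀ e x, y ≠ code R e x) → Φ B y = B y) ∧ ∀ B, Φ B ∈ O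

theorem Reach.not_null {O : Set Oracle} (h : Reach O) {f : ℕ → ℝ} (hf : ¬ Cond f) :
    ¬ Null f O := by
  classical
  obtain ⟨K, hK⟩ := exists_const hf
  obtain ⟨R, Φ, hR, hΦ, hO⟩ := h K
  obtain ⟨c, hc⟩ := hK R hR
  refine not_null_of f Set.univ (by rw [measure_univ]; exact one_pos) Φ
    {y : List Bool | ∃ e z, y = code R e z} ?_ c hc O fun B _ => hO B
  intro B y hy
  exact hΦ B y fun e x h => hy ⟨e, x, h⟩

theorem Reach.close {O : Set Oracle} (h : Reach O) {g : ℕ → ℝ}
    (hg : ¬ ∀ ε : ℝ, 0 < ε → ∃ᶠ n : ℕ in atTop, g n ≤ 2 ^ (n : ℝ) ^ ε) (B : Oracle) :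
    ∃ A ∈ O, Close g B A := by
  push Not at hg
  obtain ⟨ε, hε, h1⟩ := hg
  obtain ⟨K, hK'⟩ := exists_K hε
  obtain ⟨R, Φ, hR, hΦ, hO⟩ := h K
  exact ⟨Φ B, hO B, close_of_code hε h1 hK' hR (hΦ B)⟩

theorem Reach.mono {O O' : Set Oracle} (h : Reach O) (hO : O ⊆ O') : Reach O' := by
  intro K
  obtain ⟨R, Φ, hR, hΦ, h1⟩ := h K
  exact ⟨R, Φ, hR, hΦ, fun B => hO (h1 B)⟩

end Pool.Agent.Helper11x.SW7
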