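import Pool.Agent.TH678.PN.Pat1
import Pool.Agent.Helper11x.SW7.Base

/-!
# The world with `P = NP = PSPACE ≠ EXP` can be reached from every oracle

(The construction is the one of `Pool.Agent.TH678.PN.Pat1`.)
-/

set_option autoImplicit false

namespace Pool.Agent.Helper11x.SW7

open Pool.Agent.NPC Pool.Agent.H620R2.Gauge Pool.Agent.H622R2 MeasureTheory
open Pool.Agent.TH678.PN

open Classical in
theorem reach1 (O : Set Oracle)
    (hO : ∀ A : Oracle, (∀ L, IsPSPACE A L → IsP A L) →
      (∃ L, IsEXP A L ∧ ¬ IsPSPACE A L) → A ∈ O) : Reach O := by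
  intro K
  obtain ⟨g, hg⟩ := CC.exists_enum
  choose bd hbd using pspace_task
  obtain ⟨m, hm1, _, hm3⟩ := exists_schedule (CE g bd) (CE_ev g bd) (fun _ _ => 0)
  have hmi : Function.Injective m := (strictMono_nat_of_lt_succ hm3).injective
  set b : ℕ → Polynomial ℕ := fun e => Nat.casesOn e 0 (fun e => bd (g e).1 (g e).2) with hb
  set R : ℕ → Polynomial ℕ := fun e => b e + (Polynomial.X + Polynomial.C (e + 1)) ^ K with hR
  have hReq : ∀ e n, (R e).eval n = (b e).eval n + (n + (e + 1)) ^ K := by
    intro e n
    rw [hR]
    simp only [Polynomial.eval_add, Polynomial.eval_pow, Polynomial.eval_X, Polynomial.eval_C]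
  have hRe : ∀ e n, (n + e + 1) ^ K ≤ (R e).eval n := by
    intro e n
    rw [hReq, add_assoc n e 1]
    exact Nat.le_add_left _ _
  let V : ℕ → Oracle → List Bool → Prop := fun e A x =>
    Nat.casesOn e (VE g bd m A x)
      (fun e => CC.Acc (g e).1 (CC.cut ((bd (g e).1 (g e).2).eval x.length) A) x)
  have hV : ∀ e A A' x, (∀ z : List Bool, z.length < (code R e x).length → A z = A' z) →
      (V e A x ↔ V e A' x) := by
    intro e A A' x h
    cases e with
    | zero =>
      refine VE_local hm1 fun z hz => h z ?_
      have h1 : x.length < (code R 0 x).length := by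
        unfold code
        simp only [List.length_append, List.length_replicate, List.length_cons]
        omega
      omega
    | succ e =>
      have hcut : CC.cut ((bd (g e).1 (g e).2).eval x.length) A =
          CC.cut ((bd (g e).1 (g e).2).eval x.length) A' := by
        apply cut_congr
        intro z hz
        apply h
        have h1 := CC.lt_length_code R (e + 1) x
        have h2 := hReq (e + 1) x.length
        change (R (e + 1)).eval x.length = (bd (g e).1 (g e).2).eval x.length + _ at h2
        omega
      change CC.Acc _ _ _ ↔ CC.Acc _ _ _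
      rw [hcut]
  refine ⟨R, CC.Phi R V, hRe, ?_, ?_⟩
  · intro B y hy
    exact CC.Phi_not R V B y hy
  · intro B
    apply hO
    · rintro L ⟨M, p, hM⟩
      obtain ⟨e, he⟩ := hg (M, p)
      refine isP_of_reduces ⟨fun x => code R (e + 1) x,
        polyTime_of_poly_list (CC.poly_code R (e + 1)), fun x => ?_⟩
      rw [hbd M p _ L hM x, Set.mem_ofPred_eq, CC.Phi_code R V B hV (e + 1) x]
      change _ ↔ CC.Acc (g e).1 (CC.cut ((bd (g e).1 (g e).2).eval x.length) (CC.Phi R V B)) x
      rw [he]
    · refine exp_not_pspace R 0 _ g hg bd hbd m fun j => ?_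
      rw [CC.Phi_code R V B hV 0]
      exact VE_iff hmi _ j

end Pool.Agent.Helper11x.SW7
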