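import Pool.Agent.H620R2.GaugeR.R1
import Pool.Agent.H620R2.GaugeR.Seq
import Pool.Agent.TH678.PN.Incl
import Pool.Agent.TH678.PN.Space

/-!
# Questions to an oracle in `P` relative to `A` are superfluous
-/

set_option autoImplicit false

namespace Pool.Agent.Helper11x.SW7

open Pool.Agent.NPC Pool.Agent.H620R2.Gauge Pool.Agent.H622R2
open Pool.Agent.TH678.PN

/-- the next pair of the input and the answers -/
def nxt (M : Alg) (p : List Bool × List Bool) : List Bool :=
  if (M.D p.1).head? = some false then
    pairBits (unpair p.1).1 ((unpair p.1).2 ++ [decide (p.2 = [true])]) else p.1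

theorem poly_nxt (M : Alg) : Poly (nxt M) := by
  have hD : Poly (fun p : List Bool × List Bool => M.D p.1) :=
    (poly_of_polyTime M.poly).comp (Poly.fst Poly.id)
  have hu : Poly (fun p : List Bool × List Bool => unpair p.1) :=
    poly_unpair.comp (Poly.fst Poly.id)
  refine Poly.ite (Poly.decide_eq (Poly.head? hD) (NPC.Poly.const _)) ?_ (Poly.fst Poly.id)
  exact poly_pairBits (Poly.fst hu) (Poly.append (Poly.snd hu)
    (Poly.cons (Poly.decide_eq (Poly.snd Poly.id) (NPC.Poly.const _)) (NPC.Poly.const [])))

/-- one round of the simulation -/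
def rndS (M : Alg) (VC : List Bool → List Bool) (z : List Bool) : List Bool :=
  nxt M (z, VC (M.D z).tail)

theorem isFP_rndS (M : Alg) {A : Oracle} {VC : List Bool → List Bool} (h : IsFP A VC) :
    IsFP A (rndS M VC) := by
  have h1 : IsFP A (fun z => VC (M.D z).tail) :=
    IsFP.comp h (IsFP.of_poly (Poly.tail (poly_of_polyTime M.poly)))
  have h2 := IsFP.pair (IsFP.of_poly (A := A) (F := fun z => z) Poly.id) h1
  have h3 := IsFP.comp (IsFP.of_poly (A := A) ((poly_nxt M).comp poly_unpair)) h2
  have h4 : (fun z => nxt M (unpair (pairBits z (VC (M.D z).tail)))) = rndS M VC := by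
    funext z
    rw [unpair_pairBits]
    rfl
  rw [← h4]
  exact h3

theorem rndS_pair (M : Alg) {C : Oracle} {VC : List Bool → List Bool}
    (hC : ∀ y, C y = true ↔ VC y = [true]) (x a : List Bool) :
    rndS M VC (pairBits x a) = if (M.D (pairBits x a)).head? = some false then
      pairBits x (a ++ [C (M.D (pairBits x a)).tail]) else pairBits x a := by
  unfold rndS nxt
  simp only [unpair_pairBits]
  have h : decide (VC (M.D (pairBits x a)).tail = [true]) = C (M.D (pairBits x a)).tail := by
    rw [Bool.eq_iff_iff, decide_eq_true_iff, hC]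
  rw [h]

theorem iter_pair (M : Alg) {C : Oracle} {VC : List Bool → List Bool}
    (hC : ∀ y, C y = true ↔ VC y = [true]) (x : List Bool) (i : ℕ) : ∀ a : List Bool,
    ∃ a' : List Bool, (rndS M VC)^[i] (pairBits x a) = pairBits x a' ∧
      a'.length ≤ a.length + i := by
  induction i with
  | zero => intro a; exact ⟨a, rfl, by omega⟩
  | succ i ih =>
    intro a
    rw [Function.iterate_succ_apply, rndS_pair M hC]
    split_ifs with h
    · obtain ⟨a', h1, h2⟩ := ih (a ++ [C (M.D (pairBits x a)).tail])
      refine ⟨a', h1, ?_⟩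
      rw [List.length_append, List.length_singleton] at h2
      omega
    · obtain ⟨a', h1, h2⟩ := ih a
      exact ⟨a', h1, by omega⟩

theorem run_iter (M : Alg) {C : Oracle} {VC : List Bool → List Bool}
    (hC : ∀ y, C y = true ↔ VC y = [true]) (x v : List Bool) : ∀ (n : ℕ) (a : List Bool),
    M.run C x n a = some v → (M.D ((rndS M VC)^[n] (pairBits x a))).tail = v := by
  intro n
  induction n with
  | zero => intro a h; simp [Alg.run] at h
  | succ n ih =>
    intro a h
    rw [A2.run_succ] at h
    by_cases h1 : (M.D (pairBits x a)).head? = some false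
    · rw [if_pos h1] at h
      rw [Function.iterate_succ_apply, rndS_pair M hC, if_pos h1]
      exact ih _ h
    · rw [if_neg h1] at h
      have h2 : rndS M VC (pairBits x a) = pairBits x a := by rw [rndS_pair M hC, if_neg h1]
      rw [iterate_fixed h2]
      exact Option.some.inj h

/-- Questions to an oracle in `P` relative to `A` are superfluous. -/
theorem IsP.trans {A C : Oracle} (h : IsP A {y | C y = true}) {L : Set (List Bool)}
    (hL : IsP C L) : IsP A L := by
  obtain ⟨VC, hVC, hC⟩ := h
  obtain ⟨V, ⟨M, hM⟩, hV⟩ := hL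
  have hC' : ∀ y, C y = true ↔ VC y = [true] := hC
  have h1 : IsFP A (fun x => (rndS M VC)^[M.p.eval x.length] (pairBits x [])) := by
    refine IsFP.loop (isFP_rndS M hVC) (g := fun x => pairBits x [])
      (poly_pairBits Poly.id (NPC.Poly.const _)) M.p
      (Polynomial.C 2 * Polynomial.X + 1 + M.p) ?_
    intro x i hi
    obtain ⟨a', h2, h3⟩ := iter_pair M hC' x i []
    rw [h2, A2.length_pairBits]
    simp only [Polynomial.eval_add, Polynomial.eval_mul, Polynomial.eval_C, Polynomial.eval_X,
      Polynomial.eval_one]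
    simp only [List.length_nil] at h3
    omega
  have h4 : IsFP A (fun z => (M.D z).tail) :=
    IsFP.of_poly (Poly.tail (poly_of_polyTime M.poly))
  refine ⟨fun x => (M.D ((rndS M VC)^[M.p.eval x.length] (pairBits x []))).tail,
    IsFP.comp (G := fun z => (M.D z).tail) h4 h1, fun x => ?_⟩
  have h5 := run_iter M hC' x (V x) _ [] (hM x)
  simp only [h5]
  exact hV x

theorem isP_of_isPNP {A : Oracle} (h : ∀ L, IsNP A L → IsP A L) {L : Set (List Bool)}
    (hL : IsPNP A L) : IsP A L := by
  obtain ⟨C, hC, h1⟩ := hL
  exact IsP.trans (h _ hC) h1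

end Pool.Agent.Helper11x.SW7
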