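import Pool.Agent.TH678.SW.Pat3
import Pool.Agent.Helper11x.SW7.Base

/-!
# The world with `P = NP ≠ PSPACE ≠ EXP` can be reached from every oracle

(The construction is the one of `Pool.Agent.TH678.SW.Pat3`.)
-/

set_option autoImplicit false

namespace Pool.Agent.Helper11x.SW7

open Pool.Agent.NPC Finset H568R2 Pool.Agent.H676 Pool.Agent.H620R2.Gauge Pool.Agent.H622R2 MeasureTheory
open Pool.Agent.TH678.PN Pool.Agent.TH678.SW

theorem reach3 (O : Set Oracle)
    (hO : ∀ A : Oracle, (∀ L, IsNP A L → IsP A L) → (∃ L, IsPSPACE A L ∧ ¬ IsP A L) →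
      (∃ L, IsEXP A L ∧ ¬ IsPSPACE A L) → A ∈ O) : Reach O := by
  intro K
  classical
  obtain ⟨g, hg⟩ := CC.exists_enum
  obtain ⟨al, hal⟩ := exists_alg
  obtain ⟨np, hnp⟩ := exists_np
  choose bd hbd using pspace_task
  choose qb hqb using fun j => (al j).out_local
  choose cN hcN using fun i => exists_cN (np i)
  set R := RR K cN with hR
  obtain ⟨s, hs1, hs2, hs3⟩ := exists_schedule
    (fun i n => if i % 2 = 0 then
      (2 ≤ n ∧ (al (i / 2)).p.eval n ≤ 2 ^ n ∧ (qb (i / 2)).eval n ≤ 2 ^ n)
      else CE g bd (i / 2) n)
    (by
      intro i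
      by_cases hi : i % 2 = 0
      · simp only [if_pos hi]
        obtain ⟨n₁, h1⟩ := X9.exists_n0 (al (i / 2)).p
        obtain ⟨n₂, h2⟩ := X9.exists_n0 (qb (i / 2))
        refine ⟨max 2 (max n₁ n₂), fun n hn => ?_⟩
        have e1 : 2 ≤ n := (le_max_left _ _).trans hn
        have e2 : n₁ ≤ n := ((le_max_left _ _).trans (le_max_right _ _)).trans hn
        have e3 : n₂ ≤ n := ((le_max_right _ _).trans (le_max_right _ _)).trans hn
        exact ⟨e1, h1 n e2, h2 n e3⟩
      · simp only [if_neg hi]
        exact CE_ev g bd (i / 2))
    (fun i n => if i % 2 = 0 then 2 ^ n else (code R 0 (fstr n)).length)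
  have e0 : ∀ j : ℕ, 2 * j % 2 = 0 := fun j => by omega
  have e1 : ∀ j : ℕ, ¬ (2 * j + 1) % 2 = 0 := fun j => by omega
  have d0 : ∀ j : ℕ, 2 * j / 2 = j := fun j => by omega
  have d1 : ∀ j : ℕ, (2 * j + 1) / 2 = j := fun j => by omega
  have hC0 : ∀ j, 2 ≤ s (2 * j) ∧ (al j).p.eval (s (2 * j)) ≤ 2 ^ s (2 * j) ∧
      (qb j).eval (s (2 * j)) ≤ 2 ^ s (2 * j) := by
    intro j
    have h := hs1 (2 * j)
    rw [if_pos (e0 j), d0] at h
    exact h
  have hC1 : ∀ j, CE g bd j (s (2 * j + 1)) := by
    intro j
    have h := hs1 (2 * j + 1)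
    rw [if_neg (e1 j), d1] at h
    exact h
  have hG0 : ∀ j, 2 ^ s (2 * j) < s (2 * j + 1) := by
    intro j
    have h := hs2 (2 * j)
    rw [if_pos (e0 j)] at h
    exact h
  have hG1 : ∀ j, (code R 0 (fstr (s (2 * j + 1)))).length < s (2 * j + 2) := by
    intro j
    have h := hs2 (2 * j + 1)
    rw [if_neg (e1 j)] at h
    exact h
  have hsm : StrictMono s := strictMono_nat_of_lt_succ hs3
  have hni : Function.Injective (fun j => s (2 * j)) := by
    intro j j' h
    have := hsm.injective h
    omega
  let D : Ins ℕ :=
    { R := R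
      np := np
      cN := cN
      hc := fun i x A h => hcN i x A h
      hR := fun i n => RR_odd K cN i n
      W := VE g bd (fun j => s (2 * j + 1))
      hW := fun A A' z h => VE_local hC1 fun y hy => h y (by
        have h1 : z.length < (code R 0 z).length := by
          unfold code
          simp only [List.length_append, List.length_replicate, List.length_cons]
          omega
        omega)
      lev := fun j => s (2 * j)
      Lv := fun k => if h : ∃ j, s (2 * j) = k then {h.choose} else ∅
      mem_Lv := by
        intro k t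
        by_cases h : ∃ j, s (2 * j) = k
        · rw [dif_pos h, Finset.mem_singleton]
          constructor
          · intro h1
            rw [h1]
            exact h.choose_spec
          · intro h1
            exact hni (h1.trans h.choose_spec.symm)
        · rw [dif_neg h]
          simp only [Finset.notMem_empty, false_iff]
          exact fun h1 => h ⟨t, h1⟩
      card_Lv := by
        intro k
        by_cases h : ∃ j, s (2 * j) = k
        · rw [dif_pos h, Finset.card_singleton]
          exact Nat.one_le_two_pow
        · rw [dif_neg h]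
          simp
      two_le := fun j => (hC0 j).1
      hWw := by
        intro z
        by_cases hz : ∃ j, z = fstr (s (2 * j + 1))
        · right
          obtain ⟨j, rfl⟩ := hz
          intro k hk hlt
          have h1 : ∃ i, s (2 * i) = k := by
            by_contra hno
            rw [dif_neg hno] at hk
            exact Finset.not_nonempty_empty hk
          obtain ⟨i, rfl⟩ := h1
          have h2 := hG1 j
          have h3 : 2 * i < 2 * j + 2 := hsm.lt_iff_lt.1 (hlt.trans h2)
          have h4 : s (2 * i) ≤ s (2 * j) := hsm.monotone (by omega)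
          have h5 : 2 ^ s (2 * i) ≤ 2 ^ s (2 * j) := Nat.pow_le_pow_right (by norm_num) h4
          have h6 := hG0 j
          have h7 : s (2 * j + 1) ≤ (code R 0 (fstr (s (2 * j + 1)))).length := by
            unfold code
            simp only [List.length_append, List.length_replicate, List.length_cons, fstr_length]
            generalize (2 : ℕ) ^ s (2 * j + 1) = t
            omega
          omega
        · left
          rintro A ⟨j, hj, _⟩
          exact hz ⟨j, hj⟩
      fam := fun _ => 0
      inp := fun j => List.replicate (s (2 * j)) true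
      inj := by
        intro t t' _ h
        have h1 := congrArg List.length h
        rw [List.length_replicate, List.length_replicate] at h1
        exact hni h1
      r := fun _ => r3
      hr := by
        intro t
        rw [r3_eval, List.length_replicate]
      Q := fun j A => (al j).out A (List.replicate (s (2 * j)) true) ≠ some [true]
      hQ := by
        intro j A
        obtain ⟨U, hU1, hU2, hU3⟩ := hqb j A (List.replicate (s (2 * j)) true)
        rw [List.length_replicate] at hU1 hU2
        refine ⟨U, hU1.trans (hC0 j).2.1, fun u hu => (hU2 u hu).trans (hC0 j).2.2,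
          fun A' hA' => ?_⟩
        rw [hU3 A' hA'] }
  choose Φ hΦ1 hΦ2 hΦ3 hΦ4 using D.exists_orc
  refine ⟨R, Φ, fun e n => RR_ge K cN e n, ?_, ?_⟩
  · intro B y hy
    exact hΦ1 B y hy
  · intro B
    apply hO
    · exact D.np_sub_p (hΦ3 B) hnp
    · refine ⟨_, par_pspace R 2 r3 (Φ B), ?_⟩
      rintro ⟨V, ⟨M, hM⟩, hV⟩
      obtain ⟨j, rfl⟩ := hal M
      have h1 := hV (List.replicate (s (2 * j)) true)
      have h2 := hΦ4 B j
      have h3 : List.replicate (s (2 * j)) true ∈ {x : List Bool |
          Odd ((Finset.range (2 ^ (ell r3).eval x.length)).filter (fun v => Φ B (code R 2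
            (pairBits x (bitsOf ((ell r3).eval x.length) v))) = true)).card} ↔
          D.Q j (Φ B) := by
        rw [← h2, Set.mem_ofPred_eq]
        unfold Ins.ll
        congr!
      rw [h3] at h1
      change (al j).out (Φ B) (List.replicate (s (2 * j)) true) ≠ some [true] ↔ _ at h1
      rw [hM, Ne, Option.some.injEq] at h1
      exact not_iff_self h1
    · refine exp_not_pspace R 0 _ g hg bd hbd (fun j => s (2 * j + 1)) fun j => ?_
      have h1 := hΦ2 B (fstr (s (2 * j + 1)))
      refine h1.trans (VE_iff (m := fun j => s (2 * j + 1)) ?_ (Φ B) j)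
      intro j j' h
      have := hsm.injective h
      omega

end Pool.Agent.Helper11x.SW7
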