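import Pool.Agent.TH678.PN.Pat5
import Pool.Agent.Helper11x.SW7.Base

/-!
# The world with `P ≠ NP = PSPACE ≠ EXP` can be reached from every oracle

(The construction is the one of `Pool.Agent.TH678.PN.Pat5`.)
-/

set_option autoImplicit false

namespace Pool.Agent.Helper11x.SW7

open Pool.Agent.NPC Pool.Agent.H620R2.Gauge Pool.Agent.H622R2 MeasureTheory
open Pool.Agent.TH678.PN

theorem reach5 (O : Set Oracle)
    (hO : ∀ A : Oracle, (∃ L, IsNP A L ∧ ¬ IsP A L) → (∀ L, IsPSPACE A L → IsNP A L) →
      (∃ L, IsEXP A L ∧ ¬ IsPSPACE A L) → A ∈ O) : Reach O := by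
  intro K
  classical
  obtain ⟨g, hg⟩ := CC.exists_enum
  obtain ⟨al, hal⟩ := exists_alg
  choose bd hbd using pspace_task
  choose qb hqb using fun j => (al j).out_local
  choose Qf hQ1 hQ2 hQ3 using hqb
  obtain ⟨s, hs1, hs2, hs3⟩ := exists_schedule
    (fun i n => if i % 2 = 0 then
      (∀ W : ℕ, n ≤ (4 * W + 5) ^ (K + 2) → (al (i / 2)).p.eval n < 2 ^ W) else CE g bd (i / 2) n)
    (by
      intro i
      by_cases hi : i % 2 = 0
      · simp only [if_pos hi]
        exact ev_pow _ K
      · simp only [if_neg hi]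
        exact CE_ev g bd (i / 2))
    (fun i n => if i % 2 = 0 then max ((qb (i / 2)).eval n) (cl K 0 (3 * n + 1))
      else cl K 1 (n + 2 ^ n))
  have e0 : ∀ j : ℕ, 2 * j % 2 = 0 := fun j => by omega
  have e1 : ∀ j : ℕ, ¬ (2 * j + 1) % 2 = 0 := fun j => by omega
  have d0 : ∀ j : ℕ, 2 * j / 2 = j := fun j => by omega
  have d1 : ∀ j : ℕ, (2 * j + 1) / 2 = j := fun j => by omega
  let D : Dat :=
    { K := K, g := g, bd := bd, al := al, qb := qb, Qf := Qf
      hQ1 := hQ1
      hQ2 := hQ2
      hQ3 := hQ3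
      s := s
      hs := hs3
      hP := fun j => by
        have h := hs1 (2 * j)
        rw [if_pos (e0 j), d0] at h
        exact h
      hG := fun j => by
        have h := hs2 (2 * j)
        rw [if_pos (e0 j), d0] at h
        exact lt_of_le_of_lt (le_max_left _ _) h
      hG' := fun j => by
        have h := hs2 (2 * j)
        rw [if_pos (e0 j), d0] at h
        exact lt_of_le_of_lt (le_max_right _ _) h
      hE := fun j => by
        have h := hs1 (2 * j + 1)
        rw [if_neg (e1 j), d1] at h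
        exact h
      hG2 := fun j => by
        have h := hs2 (2 * j + 1)
        rw [if_neg (e1 j)] at h
        exact h }
  refine ⟨RK K, D.Or, fun e n => (RK_eval K e n).ge, ?_, ?_⟩
  · intro B y hy
    exact CC.Phi_not (RK K) (D.V B) B y hy
  · intro B
    exact hO _ (D.np_ne_p B hal) (fun L hL => D.pspace_np B hg hbd hL) (D.exp_ne_pspace B hg hbd)

end Pool.Agent.Helper11x.SW7
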