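import Pool.Agent.TH678.PN.Pat6
import Pool.Agent.Helper11x.SW7.Base

/-!
# The world with `P ≠ NP ≠ PSPACE = EXP` can be reached from every oracle

(The construction is the one of `Pool.Agent.TH678.PN.Pat6`.)
-/

set_option autoImplicit false

namespace Pool.Agent.Helper11x.SW7

open Pool.Agent.NPC Pool.Agent.H620R2.Gauge Pool.Agent.H622R2.Exp Finset MeasureTheory
open Pool.Agent.TH678.PN

open Classical in
theorem reach6 (O : Set Oracle)
    (hO : ∀ A : Oracle, (∀ L, InNTime Pol A L → IsPNP A L) →
      (∃ L, IsPSPACE A L ∧ ¬ IsNP A L) → A ∈ O) : Reach O := by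
  intro K
  have h1 := CC.poly_countable
  obtain ⟨al, hal⟩ := exists_alg
  have h2 : Countable Alg := inferInstance
  have h3 : Nonempty (Alg × Polynomial ℕ) := ⟨(al 0, 0)⟩
  obtain ⟨g, hg⟩ := exists_surjective_nat (Alg × Polynomial ℕ)
  choose rd hrd using cert_local
  obtain ⟨n, hn, hn2⟩ := exists_diag (fun j => ⟨(g j).1.D, (g j).1.poly,
    (g j).1.p.comp (Polynomial.C 2 * (g j).2 + Polynomial.X + 1)⟩)
  set R : ℕ → Polynomial ℕ := fun e => (Polynomial.X + Polynomial.C (e + 1)) ^ K with hR
  have hRe : ∀ e n, (n + e + 1) ^ K ≤ (R e).eval n := by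
    intro e n
    rw [hR]
    simp only [Polynomial.eval_pow, Polynomial.eval_add, Polynomial.eval_X, Polynomial.eval_C]
    rw [add_assoc]
  set p : ℕ → Polynomial ℕ := p6 (fun e => rd (g e).1 (g e).2) with hp
  have hjj : ∀ (x : List Bool) (j j' : ℕ), x = List.replicate (n j) true →
      x = List.replicate (n j') true → j' = j := by
    intro x j j' hj hj'
    apply hn
    have h4 := congrArg List.length (hj'.symm.trans hj)
    rwa [List.length_replicate, List.length_replicate] at h4
  have hQ : ∀ (e : ℕ) (x : List Bool) (A : Oracle), Q6 g n e x A → ∃ U : Finset (List Bool),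
      U.card ≤ 2 ^ (p e).eval x.length ∧
      ∀ A' : Oracle, (∀ u ∈ U, A' u = A u) → Q6 g n e x A' := by
    intro e x A hq
    cases e with
    | zero =>
      obtain ⟨j, hj, hw⟩ := hq
      obtain ⟨U, hU1, hU2⟩ := np_cert_local (g j).1 (g j).2 A x hw
      refine ⟨U, hU1.trans ?_, fun A' hA' => ⟨j, hj, hU2 A' hA'⟩⟩
      have h4 := hn2 j
      have h5 : x.length = n j := by rw [hj, List.length_replicate]
      rw [h5, hp]
      simp only [p6, Polynomial.eval_X]
      exact h4
    | succ e => exact hrd (g e).1 (g e).2 x A hq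
  have hQf : ∀ e x, FinDep (Q6 g n e x) := by
    intro e x
    cases e with
    | zero =>
      by_cases hx : ∃ j, x = List.replicate (n j) true
      · obtain ⟨j, hj⟩ := hx
        obtain ⟨U, hU⟩ := np_finDep (g j).1 (g j).2 x
        refine ⟨U, fun A A' h => ?_⟩
        have h6 := hU A A' h
        constructor
        · rintro ⟨j', hj', hw⟩
          have := hjj x j j' hj hj'
          subst this
          exact ⟨j', hj', h6.1 hw⟩
        · rintro ⟨j', hj', hw⟩
          have := hjj x j j' hj hj'
          subst this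
          exact ⟨j', hj', h6.2 hw⟩
      · refine ⟨∅, fun A A' _ => ?_⟩
        constructor
        · rintro ⟨j, hj, _⟩
          exact absurd ⟨j, hj⟩ hx
        · rintro ⟨j, hj, _⟩
          exact absurd ⟨j, hj⟩ hx
    | succ e => exact finDep_cert (g e).1 (g e).2 x
  have hΦ := fun B => (setting R p (Q6 g n) hQ hQf).exists_right B
  choose Φ hΦ1 hΦ2 using hΦ
  have hans : ∀ (B : Oracle) (e : ℕ) (x : List Bool), Q6 g n e x (Φ B) ↔
      Z (NN p) (cdN R p) (e, x) (Φ B) % 2 = 1 := fun B e x => hΦ2 B (e, x)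
  have hin : ∀ (B : Oracle) (e : ℕ), IsPNP (Φ B) {x | Q6 g n e x (Φ B)} := by
    intro B e
    have h4 := isPNP_of_code R p (Φ B) e
    have h5 : {x | Q6 g n e x (Φ B)} = {x | Z (NN p) (cdN R p) (e, x) (Φ B) % 2 = 1} := by
      ext x
      exact hans B e x
    rw [h5]
    exact h4
  refine ⟨R, Φ, hRe, ?_, ?_⟩
  · intro B y hy
    exact hΦ1 B y fun t v _ h => hy t.1 _ h
  · intro B
    apply hO
    · rintro L ⟨V, ⟨M, hM⟩, q, _, hV⟩
      obtain ⟨e, he⟩ := hg (M, q)
      have h5 : L = {x | Q6 g n (e + 1) x (Φ B)} := by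
        ext x
        rw [hV x, Set.mem_ofPred_eq]
        simp only [Q6, he, hM, Option.some.injEq]
      rw [h5]
      exact hin B (e + 1)
    · refine ⟨{x | Q6 g n 0 x (Φ B)}ᶜ, (hin B 0).isPH.isPSPACE.compl, ?_⟩
      rintro ⟨V, q, ⟨M, hM⟩, hV⟩
      obtain ⟨j, hj⟩ := hg (M, q)
      have h6 := hV (List.replicate (n j) true)
      have h7 : List.replicate (n j) true ∈ {x | Q6 g n 0 x (Φ B)} ↔
          ∃ w : List Bool, w.length ≤ q.eval (List.replicate (n j) true).length ∧
            V (pairBits w (List.replicate (n j) true)) = [true] := by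
        rw [Set.mem_ofPred_eq]
        constructor
        · rintro ⟨j', hj', w, hw, h8⟩
          have := hjj _ j j' rfl hj'
          subst this
          rw [hj] at hw h8
          exact ⟨w, hw, by rw [hM] at h8; exact Option.some.inj h8⟩
        · rintro ⟨w, hw, h8⟩
          refine ⟨j, rfl, w, ?_, ?_⟩
          · rw [hj]
            exact hw
          · rw [hj]
            simp only
            rw [hM, h8]
      rw [Set.mem_compl_iff, h7] at h6
      exact not_iff_self h6

end Pool.Agent.Helper11x.SW7
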