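import Pool.Agent.TH678.PN.Pat5
import Pool.Agent.TH678.PN.Pat6
import Pool.Agent.Helper11x.SW7.Base

/-!
# The world with `P ≠ NP ≠ PSPACE ≠ EXP` can be reached from every oracle

The values at the code strings with numbers `0`, `1`, `2` are chosen generically.
-/

set_option autoImplicit false

namespace Pool.Agent.Helper11x.SW7

open Pool.Agent.NPC Pool.Agent.H620R2.Gauge Pool.Agent.H622R2 MeasureTheory
open Pool.Agent.TH678.PN

/-! ### Topology -/

theorem isOpen_of_finite {S : Set Oracle} (h : ∀ G ∈ S, ∃ U : Finset (List Bool),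
    ∀ G' : Oracle, (∀ u ∈ U, G' u = G u) → G' ∈ S) : IsOpen S := by
  rw [isOpen_iff_forall_mem_open]
  intro G hG
  obtain ⟨U, hU⟩ := h G hG
  refine ⟨{G' | ∀ u ∈ U, G' u = G u}, fun G' h => hU G' h, ?_, fun _ _ => rfl⟩
  have h1 : {G' : Oracle | ∀ u ∈ U, G' u = G u} =
      ⋂ u ∈ U, (fun G' : Oracle => G' u) ⁻¹' {G u} := by
    ext G'
    simp
  rw [h1]
  exact isOpen_biInter_finset fun u _ => (isOpen_discrete _).preimage (continuous_apply u)

theorem dense_of_finite {S : Set Oracle} (h : ∀ (G : Oracle) (U : Finset (List Bool)),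
    ∃ G' ∈ S, ∀ u ∈ U, G' u = G u) : Dense S := by
  rw [dense_iff_inter_open]
  rintro V hV ⟨G, hG⟩
  obtain ⟨I, u, hu, hI⟩ := isOpen_pi_iff.1 hV G hG
  obtain ⟨G', hG', h1⟩ := h G I
  refine ⟨G', hI ?_, hG'⟩
  intro i hi
  rw [h1 i hi]
  exact (hu i hi).2

/-- every countable family of conditions, each of which can be satisfied after any finite
condition and by a finite condition, can be satisfied -/
theorem exists_generic (S : ℕ → Set Oracle) (ho : ∀ i, ∀ G ∈ S i, ∃ U : Finset (List Bool),
    ∀ G' : Oracle, (∀ u ∈ U, G' u = G u) → G' ∈ S i)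
    (hd : ∀ (i : ℕ) (G : Oracle) (U : Finset (List Bool)), ∃ G' ∈ S i, ∀ u ∈ U, G' u = G u) :
    ∃ G, ∀ i, G ∈ S i := by
  have h := dense_iInter_of_isOpen (f := S) (fun i => isOpen_of_finite (ho i))
    (fun i => dense_of_finite (hd i))
  obtain ⟨G, hG⟩ := h.nonempty
  exact ⟨G, Set.mem_iInter.1 hG⟩

/-! ### Merging -/

open Classical in
/-- the oracle `G` at the code strings and `B` elsewhere -/
noncomputable def merge (R : ℕ → Polynomial ℕ) (B G : Oracle) : Oracle :=
  fun y => if ∃ e x, y = code R e x then G y else B y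

theorem merge_code (R : ℕ → Polynomial ℕ) (B G : Oracle) (e : ℕ) (x : List Bool) :
    merge R B G (code R e x) = G (code R e x) := by
  unfold merge
  rw [if_pos ⟨e, x, rfl⟩]

theorem merge_not (R : ℕ → Polynomial ℕ) (B G : Oracle) (y : List Bool)
    (h : ∀ e x, y ≠ code R e x) : merge R B G y = B y := by
  unfold merge
  rw [if_neg]
  rintro ⟨e, x, hx⟩
  exact h e x hx

theorem merge_congr (R : ℕ → Polynomial ℕ) (B : Oracle) {G G' : Oracle} {y : List Bool}
    (h : G' y = G y) : merge R B G' y = merge R B G y := by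
  unfold merge
  rw [h]

/-! ### The conditions -/

/-- the input of length `m` -/
def rep (m : ℕ) : List Bool := List.replicate m true

theorem rep_length (m : ℕ) : (rep m).length = m := by simp [rep]

/-- some code string of the region with number `e` and size `m` is in the oracle -/
def Hit (R : ℕ → Polynomial ℕ) (e m : ℕ) (G : Oracle) : Prop :=
  ∃ w : List Bool, w.length ≤ m ∧ G (code R e (pairBits (rep m) w)) = true

/-- the polynomial-time algorithm `M` makes an error -/
def D1 (R : ℕ → Polynomial ℕ) (B : Oracle) (M : Alg) : Set Oracle :=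
  {G | ∃ m, Hit R 0 m G ↔ M.out (merge R B G) (rep m) ≠ some [true]}

/-- the nondeterministic polynomial-time algorithm `M` makes an error -/
def D2 (R : ℕ → Polynomial ℕ) (B : Oracle) (M : Alg) (q : Polynomial ℕ) : Set Oracle :=
  {G | ∃ m, Hit R 1 m G ↔ ∃ v : List Bool, v.length ≤ q.eval (rep m).length ∧
    M.out (merge R B G) (pairBits v (rep m)) = some [true]}

/-- the polynomial-space algorithm `M` makes an error -/
def D3 (R : ℕ → Polynomial ℕ) (bd : SAlg → Polynomial ℕ → Polynomial ℕ) (B : Oracle)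
    (M : SAlg) (p : Polynomial ℕ) : Set Oracle :=
  {G | ∃ m, merge R B G (code R 2 (fstr m)) = true ↔
    ¬ CC.Acc M (CC.cut ((bd M p).eval (xin m).length) (merge R B G)) (xin m)}

theorem hit_finDep (R : ℕ → Polynomial ℕ) (e m : ℕ) : FinDep (Hit R e m) := by
  classical
  obtain ⟨W, _, hW⟩ := exists_short m
  refine ⟨W.image (fun w => code R e (pairBits (rep m) w)), fun A A' h => ?_⟩
  have key : ∀ w : List Bool, w.length ≤ m →
      A' (code R e (pairBits (rep m) w)) = A (code R e (pairBits (rep m) w)) := fun w hw =>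
    h _ (Finset.mem_image_of_mem _ (hW w hw))
  constructor
  · rintro ⟨w, hw, h1⟩
    exact ⟨w, hw, by rw [key w hw]; exact h1⟩
  · rintro ⟨w, hw, h1⟩
    exact ⟨w, hw, by rw [← key w hw]; exact h1⟩

theorem finDep_merge (R : ℕ → Polynomial ℕ) (B : Oracle) {P : Oracle → Prop} (h : FinDep P) :
    FinDep (fun G => P (merge R B G)) := by
  obtain ⟨W, hW⟩ := h
  exact ⟨W, fun A A' h => hW _ _ fun u hu => merge_congr R B (h u hu)⟩

theorem finDep_iff {P Q : Oracle → Prop} (hP : FinDep P) (hQ : FinDep Q) :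
    FinDep (fun G => P G ↔ Q G) := by
  classical
  obtain ⟨W, hW⟩ := hP
  obtain ⟨W', hW'⟩ := hQ
  refine ⟨W ∪ W', fun A A' h => ?_⟩
  have h1 := hW A A' fun u hu => h u (Finset.mem_union_left _ hu)
  have h2 := hW' A A' fun u hu => h u (Finset.mem_union_right _ hu)
  simp only [h1, h2]

theorem open_of_finDep {P : ℕ → Oracle → Prop} (h : ∀ m, FinDep (P m)) :
    ∀ G ∈ {G | ∃ m, P m G}, ∃ U : Finset (List Bool),
      ∀ G' : Oracle, (∀ u ∈ U, G' u = G u) → G' ∈ {G | ∃ m, P m G} := by
  rintro G ⟨m, hm⟩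
  obtain ⟨U, hU⟩ := h m
  exact ⟨U, fun G' hG' => ⟨m, (hU G G' hG').1 hm⟩⟩

theorem out_finDep (M : Alg) (x : List Bool) : FinDep (fun A => M.out A x ≠ some [true]) := by
  obtain ⟨b, hb⟩ := M.out_local
  obtain ⟨W, _, hW⟩ := exists_short (b.eval x.length)
  refine ⟨W, fun A A' h => ?_⟩
  obtain ⟨Q, _, hQ1, hQ2⟩ := hb A x
  have h1 : M.out A' x = M.out A x := hQ2 A' fun y hy => h y (hW y (hQ1 y hy))
  simp only [h1]

theorem acc_finDep (M : SAlg) (n : ℕ) (x : List Bool) :
    FinDep (fun A => ¬ CC.Acc M (CC.cut n A) x) := by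
  obtain ⟨W, _, hW⟩ := exists_short n
  refine ⟨W, fun A A' h => ?_⟩
  have h1 : CC.cut n A' = CC.cut n A := cut_congr fun z hz => h z (hW z hz)
  simp only [h1]

theorem at_finDep (y : List Bool) : FinDep (fun A => A y = true) :=
  ⟨{y}, fun A A' h => by simp only [h y (Finset.mem_singleton_self y)]⟩

/-! ### Density -/

theorem length_code_ge (R : ℕ → Polynomial ℕ) (e : ℕ) (x : List Bool) :
    x.length < (code R e x).length := by
  unfold code
  simp only [List.length_append, List.length_replicate, List.length_cons]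
  omega

theorem exists_np' : ∃ g : ℕ → Alg × Polynomial ℕ, Function.Surjective g := by
  have h1 := CC.poly_countable
  obtain ⟨al, hal⟩ := exists_alg
  have h2 : Countable Alg := inferInstance
  have h3 : Nonempty (Alg × Polynomial ℕ) := ⟨(al 0, 0)⟩
  exact exists_surjective_nat (Alg × Polynomial ℕ)

/-- all long strings are outside a finite set -/
theorem exists_long (U : Finset (List Bool)) : ∃ n₀ : ℕ, ∀ y : List Bool, n₀ ≤ y.length → y ∉ U := by
  refine ⟨U.sup List.length + 1, fun y hy h => ?_⟩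
  have := Finset.le_sup (f := List.length) h
  omega

/-- the region is larger than the set of the questions -/
theorem exists_free (R : ℕ → Polynomial ℕ) (e m : ℕ) (Q : Finset (List Bool))
    (hQ : Q.card < 2 ^ m) :
    ∃ w : List Bool, w.length ≤ m ∧ code R e (pairBits (rep m) w) ∉ Q := by
  classical
  by_contra hcon
  push Not at hcon
  have hinj : Set.InjOn (fun i : ℕ => code R e (pairBits (rep m) (bitsOf m i)))
      (Finset.range (2 ^ m) : Set ℕ) := by
    intro i hi j hj hij
    have h1 := (CC.code_inj R hij).2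
    have h2 := congrArg unpair h1
    rw [unpair_pairBits, unpair_pairBits] at h2
    have h3 := (Prod.ext_iff.1 h2).2
    simp only at h3
    rw [Finset.coe_range, Set.mem_Iio] at hi hj
    have h4 := congrArg valB h3
    rwa [valB_bitsOf m i hi, valB_bitsOf m j hj] at h4
  have h1 : (Finset.range (2 ^ m)).card ≤ Q.card :=
    Finset.card_le_card_of_injOn _ (fun i _ => hcon _ (by rw [length_bitsOf'])) hinj
  rw [Finset.card_range] at h1
  omega

open Classical in
/-- the code strings of the region are set to `false` -/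
noncomputable def clear (R : ℕ → Polynomial ℕ) (e m : ℕ) (G : Oracle) : Oracle := fun y =>
  if ∃ w : List Bool, w.length ≤ m ∧ y = code R e (pairBits (rep m) w) then false else G y

theorem clear_not (R : ℕ → Polynomial ℕ) (e m : ℕ) (G : Oracle) {y : List Bool}
    (h : ∀ w : List Bool, y ≠ code R e (pairBits (rep m) w)) : clear R e m G y = G y := by
  unfold clear
  rw [if_neg]
  rintro ⟨w, _, hw⟩
  exact h w hw

theorem clear_hit (R : ℕ → Polynomial ℕ) (e m : ℕ) (G : Oracle) : ¬ Hit R e m (clear R e m G) := by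
  rintro ⟨w, hw, h⟩
  unfold clear at h
  rw [if_pos ⟨w, hw, rfl⟩] at h
  exact Bool.false_ne_true h

open Classical in
/-- one string is put into the oracle -/
noncomputable def plant (y : List Bool) (G : Oracle) : Oracle := fun z => if z = y then true else G z

theorem plant_not {y z : List Bool} (G : Oracle) (h : z ≠ y) : plant y G z = G z := by
  unfold plant
  rw [if_neg h]

theorem plant_self (y : List Bool) (G : Oracle) : plant y G y = true := by
  unfold plant
  rw [if_pos rfl]

/-- Main step: a predicate with few questions can be fooled after any finite condition. -/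
theorem fool (R : ℕ → Polynomial ℕ) (B : Oracle) (e : ℕ) (P : ℕ → Oracle → Prop)
    (hP : ∃ n₀, ∀ m ≥ n₀, ∀ A : Oracle, P m A → ∃ Q : Finset (List Bool), Q.card < 2 ^ m ∧
      ∀ A' : Oracle, (∀ u ∈ Q, A' u = A u) → P m A') (G : Oracle) (U : Finset (List Bool)) :
    ∃ G' : Oracle, (∃ m, Hit R e m G' ↔ P m (merge R B G')) ∧ ∀ u ∈ U, G' u = G u := by
  obtain ⟨n₀, h0⟩ := hP
  obtain ⟨n₁, h1⟩ := exists_long U
  set m := max n₀ n₁ with hm
  have hfar : ∀ w : List Bool, code R e (pairBits (rep m) w) ∉ U := by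
    intro w
    apply h1
    have h2 := length_code_ge R e (pairBits (rep m) w)
    rw [length_pairBits, rep_length] at h2
    omega
  set G1 := clear R e m G with hG1
  have hag : ∀ u ∈ U, G1 u = G u := by
    intro u hu
    exact clear_not R e m G fun w hw => hfar w (hw ▸ hu)
  by_cases hp : P m (merge R B G1)
  · obtain ⟨Q, hQ, hQ2⟩ := h0 m (le_max_left _ _) _ hp
    obtain ⟨w, hw, hwQ⟩ := exists_free R e m Q hQ
    refine ⟨plant (code R e (pairBits (rep m) w)) G1, ⟨m, ?_⟩, ?_⟩
    · refine iff_of_true ⟨w, hw, plant_self _ _⟩ (hQ2 _ fun u hu => ?_)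
      apply merge_congr
      exact plant_not _ fun h => hwQ (h ▸ hu)
    · intro u hu
      have hne : u ≠ code R e (pairBits (rep m) w) := fun h => hfar w (h ▸ hu)
      rw [plant_not G1 hne, hag u hu]
  · exact ⟨G1, ⟨m, iff_of_false (clear_hit R e m G) hp⟩, hag⟩

theorem dense1 (R : ℕ → Polynomial ℕ) (B : Oracle) (M : Alg) (G : Oracle)
    (U : Finset (List Bool)) : ∃ G' ∈ D1 R B M, ∀ u ∈ U, G' u = G u := by
  have h := fool R B 0 (fun m A => M.out A (rep m) ≠ some [true]) ?_ G U
  · obtain ⟨G', h1, h2⟩ := h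
    exact ⟨G', h1, h2⟩
  · obtain ⟨b, hb⟩ := M.out_local
    obtain ⟨n₀, hn⟩ := X9.exists_n0 (M.p + 1)
    refine ⟨n₀, fun m hm A hA => ?_⟩
    obtain ⟨Q, hQ, _, hQ2⟩ := hb A (rep m)
    have h1 := hn m hm
    rw [rep_length] at hQ
    simp only [Polynomial.eval_add, Polynomial.eval_one] at h1
    exact ⟨Q, by omega, fun A' hA' => by simp only [hQ2 A' hA']; exact hA⟩

theorem dense2 (R : ℕ → Polynomial ℕ) (B : Oracle) (M : Alg) (q : Polynomial ℕ) (G : Oracle)
    (U : Finset (List Bool)) : ∃ G' ∈ D2 R B M q, ∀ u ∈ U, G' u = G u := by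
  have h := fool R B 1 (fun m A => ∃ v : List Bool, v.length ≤ q.eval (rep m).length ∧
    M.out A (pairBits v (rep m)) = some [true]) ?_ G U
  · obtain ⟨G', h1, h2⟩ := h
    exact ⟨G', h1, h2⟩
  · obtain ⟨n₀, hn⟩ := X9.exists_n0 (M.p.comp (Polynomial.C 2 * q + Polynomial.X + 1) + 1)
    refine ⟨n₀, fun m hm A hA => ?_⟩
    obtain ⟨Q, hQ, hQ2⟩ := np_cert_local M q A (rep m) hA
    have h1 := hn m hm
    rw [rep_length] at hQ
    rw [Polynomial.eval_add, Polynomial.eval_one] at h1
    exact ⟨Q, by omega, hQ2⟩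

theorem dense3 (R : ℕ → Polynomial ℕ) (bd : SAlg → Polynomial ℕ → Polynomial ℕ) (B : Oracle)
    (M : SAlg) (p : Polynomial ℕ) (G : Oracle) (U : Finset (List Bool)) :
    ∃ G' ∈ D3 R bd B M p, ∀ u ∈ U, G' u = G u := by
  classical
  obtain ⟨n₀, h0⟩ := CE_ev (fun _ => (M, p)) bd 0
  obtain ⟨n₁, h1⟩ := exists_long U
  set m := max n₀ n₁ with hm
  have h2 := h0 m (le_max_left _ _)
  unfold CE at h2
  simp only at h2
  set y := code R 2 (fstr m) with hy
  have hylen : m + 2 ^ m < y.length := by
    have := length_code_ge R 2 (fstr m)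
    rwa [fstr_length] at this
  have hyU : y ∉ U := h1 y (by have := le_max_right n₀ n₁; omega)
  set c : Bool := decide (¬ CC.Acc M (CC.cut ((bd M p).eval (xin m).length) (merge R B G)) (xin m))
    with hc
  set G' : Oracle := fun z => if z = y then c else G z with hG'
  have hcut : CC.cut ((bd M p).eval (xin m).length) (merge R B G') =
      CC.cut ((bd M p).eval (xin m).length) (merge R B G) := by
    apply cut_congr
    intro z hz
    rw [xin_length] at hz
    apply merge_congr
    have hne : z ≠ y := by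
      intro h
      rw [h] at hz
      omega
    simp only [hG', if_neg hne]
  refine ⟨G', ⟨m, ?_⟩, fun u hu => ?_⟩
  · rw [hcut, merge_code]
    have h3 : G' (code R 2 (fstr m)) = c := by simp only [hG', hy, if_true]
    rw [h3, hc, decide_eq_true_iff]
  · have hne : u ≠ y := fun h => hyU (h ▸ hu)
    simp only [hG', if_neg hne]

/-! ### The theorem -/

theorem reach7 (O : Set Oracle)
    (hO : ∀ A : Oracle, (∃ L, IsNP A L ∧ ¬ IsP A L) → (∃ L, IsPSPACE A L ∧ ¬ IsNP A L) →
      (∃ L, IsEXP A L ∧ ¬ IsPSPACE A L) → A ∈ O) : Reach O := by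
  intro K
  obtain ⟨g, hg⟩ := CC.exists_enum
  obtain ⟨al, hal⟩ := exists_alg
  obtain ⟨np, hnp⟩ := exists_np'
  choose bd hbd using pspace_task
  set R : ℕ → Polynomial ℕ := fun e => (Polynomial.X + Polynomial.C (e + 1)) ^ K with hR
  have hRe : ∀ e n, (n + e + 1) ^ K ≤ (R e).eval n := by
    intro e n
    rw [hR]
    simp only [Polynomial.eval_pow, Polynomial.eval_add, Polynomial.eval_X, Polynomial.eval_C]
    rw [add_assoc]
  have key : ∀ B : Oracle, ∃ G : Oracle, ∀ i, G ∈ (fun i : ℕ => if i % 3 = 0 then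
      D1 R B (al (i / 3)) else if i % 3 = 1 then D2 R B (np (i / 3)).1 (np (i / 3)).2 else
      D3 R bd B (g (i / 3)).1 (g (i / 3)).2) i := by
    intro B
    apply exists_generic
    · intro i
      by_cases h0 : i % 3 = 0
      · simp only [if_pos h0]
        exact open_of_finDep fun m => finDep_iff (hit_finDep R 0 m)
          (finDep_merge R B (out_finDep (al (i / 3)) (rep m)))
      · by_cases h1 : i % 3 = 1
        · simp only [if_neg h0, if_pos h1]
          exact open_of_finDep fun m => finDep_iff (hit_finDep R 1 m)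
            (finDep_merge R B (np_finDep (np (i / 3)).1 (np (i / 3)).2 (rep m)))
        · simp only [if_neg h0, if_neg h1]
          exact open_of_finDep fun m => finDep_merge R B (finDep_iff (at_finDep _)
            (acc_finDep _ _ _))
    · intro i G U
      by_cases h0 : i % 3 = 0
      · simp only [if_pos h0]
        exact dense1 R B _ G U
      · by_cases h1 : i % 3 = 1
        · simp only [if_neg h0, if_pos h1]
          exact dense2 R B _ _ G U
        · simp only [if_neg h0, if_neg h1]
          exact dense3 R bd B _ _ G U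
  choose Γ hΓ using key
  refine ⟨R, fun B => merge R B (Γ B), hRe, fun B y hy => merge_not R B _ y hy, fun B => ?_⟩
  apply hO
  · refine ⟨_, np_code R 0 Polynomial.X (merge R B (Γ B)), ?_⟩
    rintro ⟨V, ⟨M, hM⟩, hV⟩
    obtain ⟨j, rfl⟩ := hal M
    have h1 := hΓ B (3 * j)
    have e0 : 3 * j % 3 = 0 := by omega
    have e1 : 3 * j / 3 = j := by omega
    simp only [if_pos e0, e1] at h1
    obtain ⟨m, hm⟩ := h1
    have h2 := hV (rep m)
    rw [Set.mem_ofPred_eq] at h2
    simp only [merge_code, Polynomial.eval_X, rep_length] at h2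
    change Hit R 0 m (Γ B) ↔ _ at h2
    rw [hm, hM, Ne, Option.some.injEq] at h2
    exact not_iff_self h2
  · refine ⟨_, (np_code R 1 Polynomial.X (merge R B (Γ B))).isPSPACE.compl, ?_⟩
    rintro ⟨V, q, ⟨M, hM⟩, hV⟩
    obtain ⟨j, hj⟩ := hnp (M, q)
    have h1 := hΓ B (3 * j + 1)
    have e0 : ¬ (3 * j + 1) % 3 = 0 := by omega
    have e2 : (3 * j + 1) % 3 = 1 := by omega
    have e1 : (3 * j + 1) / 3 = j := by omega
    simp only [if_neg e0, if_pos e2, e1, hj] at h1
    obtain ⟨m, hm⟩ := h1
    have h2 := hV (rep m)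
    rw [Set.mem_compl_iff, Set.mem_ofPred_eq] at h2
    simp only [merge_code, Polynomial.eval_X] at h2
    have h3 : (∃ w : List Bool, w.length ≤ (rep m).length ∧
        Γ B (code R 1 (pairBits (rep m) w)) = true) ↔ Hit R 1 m (Γ B) := by
      rw [rep_length]
      rfl
    rw [h3, hm] at h2
    simp only [hM, Option.some.injEq] at h2
    exact not_iff_self h2
  · have h1 : ∀ j, ∃ m, merge R B (Γ B) (code R 2 (fstr m)) = true ↔
        ¬ CC.Acc (g j).1 (CC.cut ((bd (g j).1 (g j).2).eval (xin m).length)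
          (merge R B (Γ B))) (xin m) := by
      intro j
      have h1 := hΓ B (3 * j + 2)
      have e0 : ¬ (3 * j + 2) % 3 = 0 := by omega
      have e2 : ¬ (3 * j + 2) % 3 = 1 := by omega
      have e1 : (3 * j + 2) / 3 = j := by omega
      simp only [if_neg e0, if_neg e2, e1] at h1
      exact h1
    choose m hm using h1
    exact exp_not_pspace R 2 _ g hg bd hbd m hm

end Pool.Agent.Helper11x.SW7
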