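import Pool.Agent.Helper11x.SW7.P1
import Pool.Agent.Helper11x.SW7.P2
import Pool.Agent.Helper11x.SW7.P3
import Pool.Agent.Helper11x.SW7.P4
import Pool.Agent.Helper11x.SW7.P5
import Pool.Agent.Helper11x.SW7.P6
import Pool.Agent.Helper11x.SW7.P7
import Pool.Agent.Helper11x.SW7.Comp

/-!
# The seven worlds
-/

set_option autoImplicit false

namespace Pool.Agent.Helper11x.SW7

open Pool.Agent.NPC Pool.Agent.H620R2.Gauge Pool.Agent.H622R2.Exp MeasureTheory Filter
open Pool.Agent.TH678.PN Pool.Agent.W900.CH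
open Pool.Agent.H628R3.RO (randomOracle)

/-- The oracles `A` relative to which the inclusion `P ⊆ NP` is proper if `a` is `true` and an
equality if `a` is `false`, and in the same way for `NP ⊆ PSPACE` and `b` and for
`PSPACE ⊆ EXP` and `c`. -/
def World (a b c : Bool) : Set Oracle :=
  {A | ((∃ L, IsNP A L ∧ ¬ IsP A L) ↔ a = true) ∧
    ((∃ L, IsPSPACE A L ∧ ¬ IsNP A L) ↔ b = true) ∧
    ((∃ L, IsEXP A L ∧ ¬ IsPSPACE A L) ↔ c = true)}

theorem not_exists_iff {C D : Set (List Bool) → Prop} :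
    (¬ ∃ L, C L ∧ ¬ D L) ↔ ∀ L, C L → D L := by
  push Not
  rfl

theorem isEXP_of_inTime {A : Oracle} {L : Set (List Bool)} (h : InTime Pol A L) : IsEXP A L := by
  obtain ⟨M, q, _, hM⟩ := h
  refine ⟨⟨M.D, M.poly, q⟩, fun x => ?_⟩
  have key : ∀ (n : ℕ) (a : List Bool),
      (⟨M.D, M.poly, q⟩ : Alg).run A x n a = M.run A x n a := by
    intro n
    induction n with
    | zero => intro a; rfl
    | succ n ih =>
      intro a
      rw [A2.run_succ, A2.run_succ]
      simp only [ih]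
  obtain ⟨z, hz, hx⟩ := hM x
  exact ⟨z, (key _ _).trans hz, hx⟩

theorem isEXP_of_isPSPACE {A : Oracle} {L : Set (List Bool)} (h : IsPSPACE A L) : IsEXP A L :=
  isEXP_of_inTime h.inTime

theorem isNTime_of_isPSPACE {A : Oracle} {L : Set (List Bool)} (h : IsPSPACE A L) :
    InNTime Pol A L := h.inTime.isNTime

theorem reach_world (a b c : Bool) (h : (a, b, c) ≠ (false, false, false)) :
    Reach (World a b c) := by
  rcases a with _ | _ <;> rcases b with _ | _ <;> rcases c with _ | _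
  · exact absurd rfl h
  · -- P = NP = PSPACE ≠ EXP
    refine reach1 _ fun A h1 h2 => ⟨?_, ?_, ?_⟩
    · refine iff_of_false (not_exists_iff.2 fun L hL => h1 L hL.isPSPACE) (by simp)
    · refine iff_of_false (not_exists_iff.2 fun L hL => (h1 L hL).isNP) (by simp)
    · exact iff_of_true h2 rfl
  · -- P = NP ≠ PSPACE = EXP
    refine reach2 _ fun A h1 h2 h3 => ⟨?_, ?_, ?_⟩
    · exact iff_of_false (not_exists_iff.2 h1) (by simp)
    · obtain ⟨L, h4, h5⟩ := h2
      exact iff_of_true ⟨L, h4, fun h => h5 (h1 L h)⟩ rfl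
    · exact iff_of_false (not_exists_iff.2 h3) (by simp)
  · -- P = NP ≠ PSPACE ≠ EXP
    refine reach3 _ fun A h1 h2 h3 => ⟨?_, ?_, ?_⟩
    · exact iff_of_false (not_exists_iff.2 h1) (by simp)
    · obtain ⟨L, h4, h5⟩ := h2
      exact iff_of_true ⟨L, h4, fun h => h5 (h1 L h)⟩ rfl
    · exact iff_of_true h3 rfl
  · -- P ≠ NP = PSPACE = EXP
    refine reach4 _ fun A h1 h2 => ⟨?_, ?_, ?_⟩
    · obtain ⟨L, h4, h5⟩ := h2
      exact iff_of_true ⟨L, h4.isNP, h5⟩ rfl
    · exact iff_of_false (not_exists_iff.2 fun L hL => (h1 L (Or.inr hL)).isNP) (by simp)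
    · exact iff_of_false (not_exists_iff.2 fun L hL => (h1 L (Or.inl hL)).isNP.isPSPACE) (by simp)
  · -- P ≠ NP = PSPACE ≠ EXP
    refine reach5 _ fun A h1 h2 h3 => ⟨?_, ?_, ?_⟩
    · exact iff_of_true h1 rfl
    · exact iff_of_false (not_exists_iff.2 h2) (by simp)
    · exact iff_of_true h3 rfl
  · -- P ≠ NP ≠ PSPACE = EXP
    refine reach6 _ fun A h1 h2 => ⟨?_, ?_, ?_⟩
    · refine iff_of_true ?_ rfl
      by_contra hcon
      rw [not_exists_iff] at hcon
      obtain ⟨L, h4, h5⟩ := h2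
      exact h5 (isP_of_isPNP hcon (h1 L (isNTime_of_isPSPACE h4))).isNP
    · exact iff_of_true h2 rfl
    · exact iff_of_false (not_exists_iff.2 fun L hL =>
        (h1 L (isNTime_of_isEXP hL)).isPH.isPSPACE) (by simp)
  · exact reach7 _ fun A h1 h2 h3 => ⟨iff_of_true h1 rfl, iff_of_true h2 rfl, iff_of_true h3 rfl⟩

theorem isP_compl_np {A : Oracle} (h : ∀ L, IsNP A L → IsNP A Lᶜ) :
    WithAdvice (IsNP A) (hitLang A)ᶜ := (h _ (hitLang_np A)).withAdvice

/-- the exceptional oracles -/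
theorem null_exc {f : ℕ → ℝ} (hf : Cond f) : Null f (World true true true)ᶜ := by
  have hN : Null f {A : Oracle | WithAdvice (IsNP A) (hitLang A)ᶜ} :=
    nullN hf _ fun A hA => hA
  have hE : Null f {A : Oracle | WithAdvice (IsPSPACE A) (farLang A)} :=
    nullE hf _ fun A hA => hA
  refine (null_union hN hE).mono fun A hA => ?_
  by_cases h1 : ∃ L, IsNP A L ∧ ¬ IsP A L
  · by_cases h2 : ∃ L, IsPSPACE A L ∧ ¬ IsNP A L
    · by_cases h3 : ∃ L, IsEXP A L ∧ ¬ IsPSPACE A L
      · exact absurd ⟨iff_of_true h1 rfl, iff_of_true h2 rfl, iff_of_true h3 rfl⟩ hA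
      · rw [not_exists_iff] at h3
        exact Or.inr (h3 _ (farLang_exp A)).withAdvice
    · rw [not_exists_iff] at h2
      exact Or.inl (isP_compl_np fun L hL => h2 _ hL.isPSPACE.compl)
  · rw [not_exists_iff] at h1
    exact Or.inl (isP_compl_np fun L hL => (h1 L hL).compl.isNP)

theorem null_world (f : ℕ → ℝ) (a b c : Bool) (h : (a, b, c) ≠ (false, false, false))
    (h' : (a, b, c) ≠ (true, true, true)) : Null f (World a b c) ↔
      ∀ ε : ℝ, 0 < ε → ∃ᶠ N : ℕ in atTop, f N ≤ 2 ^ (Real.logb 2 N) ^ ε := by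
  constructor
  · intro hn
    by_contra hcon
    exact (reach_world a b c h).not_null hcon hn
  · intro hf
    refine (null_exc hf).mono fun A hA hA' => h' ?_
    obtain ⟨h1, h2, h3⟩ := hA
    obtain ⟨h4, h5, h6⟩ := hA'
    have e1 : a = true := h1.1 (h4.2 rfl)
    have e2 : b = true := h2.1 (h5.2 rfl)
    have e3 : c = true := h3.1 (h6.2 rfl)
    rw [e1, e2, e3]

theorem null_exc_iff (f : ℕ → ℝ) : Null f (World true true true)ᶜ ↔
      ∀ ε : ℝ, 0 < ε → ∃ᶠ N : ℕ in atTop, f N ≤ 2 ^ (Real.logb 2 N) ^ ε := by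
  refine ⟨fun hn => ?_, null_exc⟩
  refine (null_world f false false true (by simp) (by simp)).1 (hn.mono fun A hA hA' => ?_)
  have h1 := hA.1.1 (hA'.1.2 rfl)
  exact Bool.false_ne_true h1

end Pool.Agent.Helper11x.SW7
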